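import Mathlib

open Filter Topology

namespace Pool.Agent.Results.MP_6df72f_an.BasicExtension

universe u v

/-- `(y n)` is a basic sequence: nonzero vectors forming a Schauder basis of their closed linear
span (every vector there has exactly one norm-convergent expansion). -/
def IsBasicSeq (𝕜 : Type u) [RCLike 𝕜] {Y : Type v} [NormedAddCommGroup Y] [NormedSpace 𝕜 Y]
    (y : ℕ → Y) : Prop :=
  (∀ n, y n ≠ 0) ∧
    ∀ v ∈ closure (Submodule.span 𝕜 (Set.range y) : Set Y),
      ∃! a : ℕ → 𝕜, Tendsto (fun N => ∑ n ∈ Finset.range N, a n • y n) atTop (𝓝 v)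

variable {𝕜 : Type u} [RCLike 𝕜]

/-! ### Grunblum's criterion -/

section Grunblum

variable {Y : Type v} [NormedAddCommGroup Y] [NormedSpace 𝕜 Y]

theorem grunblum_finsupp {y : ℕ → Y} {K : ℝ}
    (hK : ∀ (a : ℕ → 𝕜) (m n : ℕ), m ≤ n →
      ‖∑ i ∈ Finset.range m, a i • y i‖ ≤ K * ‖∑ i ∈ Finset.range n, a i • y i‖)
    (c : ℕ →₀ 𝕜) (m : ℕ) :
    ‖∑ i ∈ Finset.range m, c i • y i‖ ≤ K * ‖Finsupp.linearCombination 𝕜 y c‖ := by
  have hsum : ∀ n, c.support ⊆ Finset.range n →
      Finsupp.linearCombination 𝕜 y c = ∑ i ∈ Finset.range n, c i • y i := by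
    intro n hn
    rw [Finsupp.linearCombination_apply, Finsupp.sum_of_support_subset c hn _ (by simp)]
  set n := max m (c.support.sup id + 1) with hn
  have h1 : c.support ⊆ Finset.range n := by
    intro i hi
    rw [Finset.mem_range]
    have : i ≤ c.support.sup id := Finset.le_sup (f := id) hi
    omega
  rw [hsum n h1]
  exact hK _ m n (le_max_left _ _)

theorem linearCombination_eq_range (y : ℕ → Y) (c : ℕ →₀ 𝕜) (n : ℕ)
    (hn : c.support ⊆ Finset.range n) :
    Finsupp.linearCombination 𝕜 y c = ∑ i ∈ Finset.range n, c i • y i := by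
  rw [Finsupp.linearCombination_apply, Finsupp.sum_of_support_subset c hn _ (by simp)]

theorem isBasicSeq_of_grunblum [CompleteSpace Y] {y : ℕ → Y} (hy : ∀ n, y n ≠ 0) {K : ℝ}
    (hK : ∀ (a : ℕ → 𝕜) (m n : ℕ), m ≤ n →
      ‖∑ i ∈ Finset.range m, a i • y i‖ ≤ K * ‖∑ i ∈ Finset.range n, a i • y i‖) :
    IsBasicSeq 𝕜 y := by
  have hK1 : 1 ≤ K := by
    have h := hK (fun _ => 1) 1 1 le_rfl
    simp only [Finset.range_one, Finset.sum_singleton, one_smul] at h
    have h0 : 0 < ‖y 0‖ := norm_pos_iff.2 (hy 0)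
    by_contra hlt
    push Not at hlt
    nlinarith
  refine ⟨hy, fun v hv => ?_⟩
  -- approximating sequence
  obtain ⟨w, hw1, hw2⟩ := mem_closure_iff_seq_limit.1 hv
  have hrep : ∀ j, ∃ c : ℕ →₀ 𝕜, Finsupp.linearCombination 𝕜 y c = w j := by
    intro j
    have := hw1 j
    rw [SetLike.mem_coe, Finsupp.mem_span_range_iff_exists_finsupp] at this
    obtain ⟨c, hc⟩ := this
    exact ⟨c, by rw [Finsupp.linearCombination_apply]; exact hc⟩
  choose c hc using hrep
  -- coefficient bound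
  have hcoef : ∀ (d : ℕ →₀ 𝕜) (m : ℕ), ‖d m‖ * ‖y m‖ ≤ 2 * K * ‖Finsupp.linearCombination 𝕜 y d‖ := by
    intro d m
    have h1 : d m • y m = ∑ i ∈ Finset.range (m + 1), d i • y i - ∑ i ∈ Finset.range m, d i • y i := by
      rw [Finset.sum_range_succ]; abel
    rw [← norm_smul, h1]
    refine (norm_sub_le _ _).trans ?_
    have h2 := grunblum_finsupp hK d (m + 1)
    have h3 := grunblum_finsupp hK d m
    linarith
  have hcau : ∀ m, CauchySeq (fun j => c j m) := by
    intro m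
    rw [Metric.cauchySeq_iff]
    intro ε hε
    have hym : 0 < ‖y m‖ := norm_pos_iff.2 (hy m)
    obtain ⟨N, hN⟩ := Metric.cauchySeq_iff.1 hw2.cauchySeq (ε * ‖y m‖ / (2 * K)) (by positivity)
    refine ⟨N, fun j hj k hk => ?_⟩
    have h1 := hN j hj k hk
    rw [dist_eq_norm] at h1 ⊢
    have h2 := hcoef (c j - c k) m
    rw [map_sub, hc, hc, Finsupp.sub_apply] at h2
    rw [lt_div_iff₀ (by positivity)] at h1
    have h3 : ‖c j m - c k m‖ * ‖y m‖ < ε * ‖y m‖ := by linarith
    exact lt_of_mul_lt_mul_right h3 hym.le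
  choose a ha using fun m => cauchySeq_tendsto_of_complete (hcau m)
  have hlim : ∀ (N : ℕ) (d : ℕ →₀ 𝕜),
      ‖∑ i ∈ Finset.range N, a i • y i - ∑ i ∈ Finset.range N, d i • y i‖
        ≤ K * ‖v - Finsupp.linearCombination 𝕜 y d‖ := by
    intro N d
    have h1 : Tendsto (fun j => ‖∑ i ∈ Finset.range N, (c j - d) i • y i‖) atTop
        (𝓝 ‖∑ i ∈ Finset.range N, a i • y i - ∑ i ∈ Finset.range N, d i • y i‖) := by
      refine Tendsto.norm ?_
      rw [← Finset.sum_sub_distrib]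
      refine tendsto_finsetSum _ (fun i _ => ?_)
      rw [← sub_smul]
      simp only [Finsupp.sub_apply]
      exact ((ha i).sub_const _).smul_const _
    have h2 : Tendsto (fun j => K * ‖w j - Finsupp.linearCombination 𝕜 y d‖) atTop
        (𝓝 (K * ‖v - Finsupp.linearCombination 𝕜 y d‖)) :=
      (hw2.sub_const _).norm.const_mul _
    refine le_of_tendsto_of_tendsto' h1 h2 (fun j => ?_)
    have h3 := grunblum_finsupp hK (c j - d) N
    rwa [map_sub, hc] at h3
  refine ⟨a, ?_, ?_⟩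
  · show Tendsto (fun N => ∑ n ∈ Finset.range N, a n • y n) atTop (𝓝 v)
    rw [Metric.tendsto_atTop]
    intro ε hε
    obtain ⟨j, hj⟩ := (Metric.tendsto_atTop.1 hw2 (ε / (K + 1)) (by positivity))
    have hj' := hj j le_rfl
    refine ⟨(c j).support.sup id + 1, fun N hN => ?_⟩
    have hsub : (c j).support ⊆ Finset.range N := by
      intro i hi
      rw [Finset.mem_range]
      have : i ≤ (c j).support.sup id := Finset.le_sup (f := id) hi
      omega
    have h1 := hlim N (c j)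
    rw [← linearCombination_eq_range y (c j) N hsub, hc] at h1
    rw [dist_eq_norm] at hj' ⊢
    have h2 : ‖∑ n ∈ Finset.range N, a n • y n - v‖
        ≤ ‖∑ n ∈ Finset.range N, a n • y n - w j‖ + ‖w j - v‖ := norm_sub_le_norm_sub_add_norm_sub _ _ _
    rw [norm_sub_rev v (w j)] at h1
    rw [lt_div_iff₀ (by positivity)] at hj'
    nlinarith
  · intro b hb
    have hb' : Tendsto (fun N => ∑ n ∈ Finset.range N, b n • y n) atTop (𝓝 v) := hb
    have ha' : Tendsto (fun N => ∑ n ∈ Finset.range N, a n • y n) atTop (𝓝 v) := by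
      rw [Metric.tendsto_atTop]
      intro ε hε
      obtain ⟨j, hj⟩ := (Metric.tendsto_atTop.1 hw2 (ε / (K + 1)) (by positivity))
      have hj' := hj j le_rfl
      refine ⟨(c j).support.sup id + 1, fun N hN => ?_⟩
      have hsub : (c j).support ⊆ Finset.range N := by
        intro i hi
        rw [Finset.mem_range]
        have : i ≤ (c j).support.sup id := Finset.le_sup (f := id) hi
        omega
      have h1 := hlim N (c j)
      rw [← linearCombination_eq_range y (c j) N hsub, hc] at h1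
      rw [dist_eq_norm] at hj' ⊢
      have h2 : ‖∑ n ∈ Finset.range N, a n • y n - v‖
          ≤ ‖∑ n ∈ Finset.range N, a n • y n - w j‖ + ‖w j - v‖ :=
        norm_sub_le_norm_sub_add_norm_sub _ _ _
      rw [norm_sub_rev v (w j)] at h1
      rw [lt_div_iff₀ (by positivity)] at hj'
      nlinarith
    have hd : Tendsto (fun N => ∑ n ∈ Finset.range N, (b n - a n) • y n) atTop (𝓝 0) := by
      have := hb'.sub ha'
      rw [sub_self] at this
      refine this.congr (fun N => ?_)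
      rw [← Finset.sum_sub_distrib]
      exact Finset.sum_congr rfl (fun n _ => (sub_smul _ _ _).symm)
    have hz : ∀ m, ∑ n ∈ Finset.range m, (b n - a n) • y n = 0 := by
      intro m
      have h1 : Tendsto (fun N => K * ‖∑ n ∈ Finset.range N, (b n - a n) • y n‖) atTop (𝓝 0) := by
        have := hd.norm.const_mul K
        simpa using this
      have h2 : ‖∑ n ∈ Finset.range m, (b n - a n) • y n‖ ≤ 0 := by
        refine ge_of_tendsto h1 ?_
        filter_upwards [eventually_ge_atTop m] with N hN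
        exact hK (fun n => b n - a n) m N hN
      exact norm_le_zero_iff.1 h2
    funext m
    have h1 := hz (m + 1)
    rw [Finset.sum_range_succ, hz m, zero_add, smul_eq_zero] at h1
    rcases h1 with h1 | h1
    · exact sub_eq_zero.1 h1
    · exact absurd h1 (hy m)

end Grunblum

/-! ### Mazur's construction inside the cosets of an infinite-dimensional subspace of the dual -/

section Mazur

variable {E : Type v} [NormedAddCommGroup E] [NormedSpace 𝕜 E]

/-- A finite-dimensional space of functionals is normed, up to `θ < 1`, by finitely many points of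
the unit ball. -/
theorem exists_finite_norming (F : Submodule 𝕜 (StrongDual 𝕜 E)) [FiniteDimensional 𝕜 F]
    {θ : ℝ} (hθ1 : θ < 1) :
    ∃ X : Finset E, (∀ x ∈ X, ‖x‖ ≤ 1) ∧ ∀ f ∈ F, ‖f‖ = 1 → ∃ x ∈ X, θ < ‖f x‖ := by
  have : ProperSpace F := FiniteDimensional.proper_rclike 𝕜 F
  have hcomp : IsCompact (Metric.sphere (0 : F) 1) := isCompact_sphere 0 1
  let U : {x : E // ‖x‖ ≤ 1} → Set F := fun x => {f | θ < ‖(f : StrongDual 𝕜 E) x‖}
  have hU : ∀ x, IsOpen (U x) := by
    intro x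
    refine isOpen_lt continuous_const ?_
    have h1 : Continuous (fun f : F => (f : StrongDual 𝕜 E) x) := by
      have := (ContinuousLinearMap.apply 𝕜 𝕜 (x : E)).continuous.comp
        (continuous_subtype_val (p := fun f => f ∈ F))
      exact this
    exact h1.norm
  have hcov : Metric.sphere (0 : F) 1 ⊆ ⋃ x, U x := by
    intro f hf
    have hf1 : ‖(f : StrongDual 𝕜 E)‖ = 1 := mem_sphere_zero_iff_norm.1 hf
    by_contra hcon
    rw [Set.mem_iUnion] at hcon
    push Not at hcon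
    have h2 : ∀ x : E, ‖x‖ ≤ 1 → ‖(f : StrongDual 𝕜 E) x‖ ≤ max θ 0 := by
      intro x hx
      have := hcon ⟨x, hx⟩
      exact (not_lt.1 this).trans (le_max_left _ _)
    have h3 : ‖(f : StrongDual 𝕜 E)‖ ≤ max θ 0 :=
      ContinuousLinearMap.opNorm_le_of_unit_norm (le_max_right _ _) (fun x hx => h2 x hx.le)
    rw [hf1] at h3
    exact absurd h3 (not_le.2 (max_lt hθ1 one_pos))
  obtain ⟨t, ht⟩ := hcomp.elim_finite_subcover U hU hcov
  classical
  refine ⟨t.image Subtype.val, ?_, ?_⟩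
  · intro x hx
    obtain ⟨x', _, rfl⟩ := Finset.mem_image.1 hx
    exact x'.2
  · intro f hf hf1
    have hmem : (⟨f, hf⟩ : F) ∈ Metric.sphere (0 : F) 1 := mem_sphere_zero_iff_norm.2 hf1
    have := ht hmem
    rw [Set.mem_iUnion₂] at this
    obtain ⟨x, hx, hx2⟩ := this
    exact ⟨x, Finset.mem_image_of_mem _ hx, hx2⟩

/-- One step: given finitely many functionals and a coset `g + G^⊥` of a large annihilator,
choose `f` in the coset almost orthogonal to the given functionals. -/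
theorem mazur_step (G : Submodule 𝕜 E)
    (hG : ∀ X : Finset E, ∃ h : StrongDual 𝕜 E, h ≠ 0 ∧ (∀ x ∈ G, h x = 0) ∧ ∀ x ∈ X, h x = 0)
    (F : Submodule 𝕜 (StrongDual 𝕜 E)) [FiniteDimensional 𝕜 F] (g : StrongDual 𝕜 E)
    {θ : ℝ} (hθ0 : 0 < θ) (hθ1 : θ < 1) :
    ∃ f : StrongDual 𝕜 E, (∀ x ∈ G, f x = g x) ∧ f ≠ 0 ∧
      ∀ y ∈ F, ∀ c : 𝕜, θ * ‖y‖ ≤ ‖y + c • f‖ := by
  obtain ⟨X, hX1, hX2⟩ := exists_finite_norming F (θ := (1 + θ) / 2) (by linarith)
  -- a nonzero functional vanishing on `G` and on `X`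
  obtain ⟨h₀, hne, hh₀G, hh₀X⟩ := hG X
  have hpos : 0 < ‖h₀‖ := norm_pos_iff.2 hne
  -- a large multiple
  set R : ℝ := 4 * (‖g‖ + 1) / (1 - θ) with hR
  have hRpos : 0 < R := by
    have : 0 < 1 - θ := by linarith
    positivity
  set t : ℝ := (R + ‖g‖) / ‖h₀‖ with ht
  have htpos : 0 ≤ t := by positivity
  set f : StrongDual 𝕜 E := g + (t : 𝕜) • h₀ with hf
  have hfR : R ≤ ‖f‖ := by
    have h1 : ‖(t : 𝕜) • h₀‖ = R + ‖g‖ := by
      rw [norm_smul, RCLike.norm_ofReal, abs_of_nonneg htpos, ht, div_mul_cancel₀ _ hpos.ne']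
    have h2 : ‖(t : 𝕜) • h₀‖ ≤ ‖f‖ + ‖g‖ := by
      calc ‖(t : 𝕜) • h₀‖ = ‖f - g‖ := by rw [hf, add_sub_cancel_left]
        _ ≤ _ := norm_sub_le _ _
    linarith
  have hfpos : 0 < ‖f‖ := lt_of_lt_of_le hRpos hfR
  refine ⟨f, ?_, norm_pos_iff.1 hfpos, ?_⟩
  · intro x hx
    simp [hf, hh₀G x hx]
  -- the unit vector case
  have hunit : ∀ y ∈ F, ‖y‖ = 1 → ∀ c : 𝕜, θ ≤ ‖y + c • f‖ := by
    intro y hy hy1 c
    by_cases hc : 2 ≤ ‖c‖ * ‖f‖
    · have h1 : ‖c • f‖ ≤ ‖y + c • f‖ + ‖y‖ := by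
        calc ‖c • f‖ = ‖(y + c • f) - y‖ := by rw [add_sub_cancel_left]
          _ ≤ _ := norm_sub_le _ _
      rw [norm_smul, hy1] at h1
      linarith
    · push Not at hc
      obtain ⟨x, hx, hx2⟩ := hX2 y hy hy1
      have h1 : (y + c • f) x = y x + c * g x := by
        simp [hf, hh₀X x hx]
      have h2 : ‖y x‖ ≤ ‖(y + c • f) x‖ + ‖c‖ * ‖g x‖ := by
        have h3 : y x = (y + c • f) x - c * g x := by rw [h1]; ring
        calc ‖y x‖ = ‖(y + c • f) x - c * g x‖ := by rw [← h3]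
          _ ≤ ‖(y + c • f) x‖ + ‖c * g x‖ := norm_sub_le _ _
          _ = _ := by rw [norm_mul]
      have h3 : ‖(y + c • f) x‖ ≤ ‖y + c • f‖ := by
        have := (y + c • f).le_opNorm x
        have := hX1 x hx
        nlinarith [norm_nonneg (y + c • f)]
      have h4 : ‖g x‖ ≤ ‖g‖ := by
        have := g.le_opNorm x
        have := hX1 x hx
        nlinarith [norm_nonneg g]
      have h5 : ‖c‖ * R ≤ 2 := by nlinarith [norm_nonneg c]
      have h6 : ‖c‖ * ‖g‖ ≤ (1 - θ) / 2 := by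
        rw [hR] at h5
        have h7 : 0 < 1 - θ := by linarith
        rw [mul_div_assoc', div_le_iff₀ h7] at h5
        nlinarith [norm_nonneg c, norm_nonneg g]
      have h7 : ‖c‖ * ‖g x‖ ≤ ‖c‖ * ‖g‖ := by gcongr
      linarith
  intro y hy c
  by_cases hy0 : y = 0
  · rw [hy0, norm_zero, mul_zero]
    exact norm_nonneg _
  · have hny : 0 < ‖y‖ := norm_pos_iff.2 hy0
    have h1 := hunit (((‖y‖⁻¹ : ℝ) : 𝕜) • y) (F.smul_mem _ hy)
      (by rw [norm_smul, RCLike.norm_ofReal, abs_of_pos (inv_pos.2 hny), inv_mul_cancel₀ hny.ne'])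
      (((‖y‖⁻¹ : ℝ) : 𝕜) * c)
    have hkey : ((‖y‖⁻¹ : ℝ) : 𝕜) • y + (((‖y‖⁻¹ : ℝ) : 𝕜) * c) • f
        = ((‖y‖⁻¹ : ℝ) : 𝕜) • (y + c • f) := by module
    rw [hkey, norm_smul, RCLike.norm_ofReal, abs_of_pos (inv_pos.2 hny)] at h1
    rw [inv_mul_eq_div, le_div_iff₀ hny] at h1
    exact h1

/-- A sequence of representatives, one in each coset `g n + G^⊥`, that is a basic sequence. -/
theorem mazur_cosets (G : Submodule 𝕜 E)
    (hG : ∀ X : Finset E, ∃ h : StrongDual 𝕜 E, h ≠ 0 ∧ (∀ x ∈ G, h x = 0) ∧ ∀ x ∈ X, h x = 0)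
    (g : ℕ → StrongDual 𝕜 E) :
    ∃ f : ℕ → StrongDual 𝕜 E, (∀ n, ∀ x ∈ G, f n x = g n x) ∧ IsBasicSeq 𝕜 f := by
  -- constants
  let κ : ℕ → ℝ := fun n => 1 + 1 / (n + 1)
  have hκpos : ∀ n, 0 < κ n := fun n => by positivity
  have hκanti : ∀ n, κ (n + 1) < κ n := by
    intro n
    simp only [κ]
    have : (1 : ℝ) / ((n + 1 : ℕ) + 1) < 1 / (n + 1) := by
      apply one_div_lt_one_div_of_lt
      · positivity
      · push_cast; linarith
    linarith
  have hstep : ∀ (n : ℕ) (F : {F : Submodule 𝕜 (StrongDual 𝕜 E) // FiniteDimensional 𝕜 F}),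
      ∃ f : StrongDual 𝕜 E, (∀ x ∈ G, f x = g n x) ∧ f ≠ 0 ∧
        ∀ y ∈ F.1, ∀ c : 𝕜, κ (n + 1) / κ n * ‖y‖ ≤ ‖y + c • f‖ := by
    intro n F
    have := F.2
    exact mazur_step G hG F.1 (g n) (div_pos (hκpos _) (hκpos _))
      ((div_lt_one (hκpos _)).2 (hκanti n))
  choose next hn1 hn2 hn3 using hstep
  let st : ℕ → {F : Submodule 𝕜 (StrongDual 𝕜 E) // FiniteDimensional 𝕜 F} := fun n =>
    Nat.rec ⟨⊥, inferInstance⟩ (fun n F =>
      ⟨F.1 ⊔ Submodule.span 𝕜 {next n F}, by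
        have := F.2
        infer_instance⟩) n
  have hst : ∀ n, (st (n + 1)).1 = (st n).1 ⊔ Submodule.span 𝕜 {next n (st n)} := fun n => rfl
  let f : ℕ → StrongDual 𝕜 E := fun n => next n (st n)
  have hfst : ∀ n m, n < m → f n ∈ (st m).1 := by
    intro n m hnm
    induction m with
    | zero => omega
    | succ m ih =>
      rw [hst]
      rcases Nat.lt_succ_iff_lt_or_eq.1 hnm with h | h
      · exact Submodule.mem_sup_left (ih h)
      · subst h
        exact Submodule.mem_sup_right (Submodule.mem_span_singleton_self _)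
  have hmono : ∀ (a : ℕ → 𝕜) (n : ℕ), κ (n + 1) / κ n * ‖∑ i ∈ Finset.range n, a i • f i‖
      ≤ ‖∑ i ∈ Finset.range (n + 1), a i • f i‖ := by
    intro a n
    rw [Finset.sum_range_succ]
    refine hn3 n (st n) _ ?_ _
    exact Submodule.sum_mem _ (fun i hi =>
      Submodule.smul_mem _ _ (hfst i n (Finset.mem_range.1 hi)))
  have hmono2 : ∀ (a : ℕ → 𝕜) (m n : ℕ), m ≤ n → κ n * ‖∑ i ∈ Finset.range m, a i • f i‖
      ≤ κ m * ‖∑ i ∈ Finset.range n, a i • f i‖ := by
    intro a m n hmn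
    induction n, hmn using Nat.le_induction with
    | base => exact le_rfl
    | succ n hmn ih =>
      have h1 := hmono a n
      rw [div_mul_eq_mul_div, div_le_iff₀ (hκpos n)] at h1
      -- multiply inequalities
      have h2 : κ n * (κ (n + 1) * ‖∑ i ∈ Finset.range m, a i • f i‖)
          ≤ κ n * (κ m * ‖∑ i ∈ Finset.range (n + 1), a i • f i‖) := by
        calc κ n * (κ (n + 1) * ‖∑ i ∈ Finset.range m, a i • f i‖)
            = κ (n + 1) * (κ n * ‖∑ i ∈ Finset.range m, a i • f i‖) := by ring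
          _ ≤ κ (n + 1) * (κ m * ‖∑ i ∈ Finset.range n, a i • f i‖) := by
              have := (hκpos (n + 1)).le
              gcongr
          _ = κ m * (κ (n + 1) * ‖∑ i ∈ Finset.range n, a i • f i‖) := by ring
          _ ≤ κ m * (‖∑ i ∈ Finset.range (n + 1), a i • f i‖ * κ n) := by
              have := (hκpos m).le
              gcongr
          _ = _ := by ring
      exact le_of_mul_le_mul_left h2 (hκpos n)
  refine ⟨f, fun n => hn1 n (st n), isBasicSeq_of_grunblum (K := 2) (fun n => hn2 n (st n)) ?_⟩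
  intro a m n hmn
  have h1 := hmono2 a m n hmn
  have h2 : 1 ≤ κ n := by
    simp only [κ]
    have : (0 : ℝ) ≤ 1 / (n + 1) := by positivity
    linarith
  have h3 : κ m ≤ 2 := by
    simp only [κ]
    have : (1 : ℝ) / (m + 1) ≤ 1 := by
      rw [div_le_one (by positivity)]
      have : (0 : ℝ) ≤ m := Nat.cast_nonneg m
      linarith
    linarith
  calc ‖∑ i ∈ Finset.range m, a i • f i‖ ≤ κ n * ‖∑ i ∈ Finset.range m, a i • f i‖ :=
        le_mul_of_one_le_left (norm_nonneg _) h2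
    _ ≤ κ m * ‖∑ i ∈ Finset.range n, a i • f i‖ := h1
    _ ≤ 2 * ‖∑ i ∈ Finset.range n, a i • f i‖ := by gcongr

end Mazur

/-! ### Transport of basic sequences along embeddings -/

section Transport

variable {Y Z : Type v} [NormedAddCommGroup Y] [NormedSpace 𝕜 Y] [CompleteSpace Y]
  [NormedAddCommGroup Z] [NormedSpace 𝕜 Z]

theorem isBasicSeq_map (J : Y →L[𝕜] Z) (hJ : ∀ y, ‖y‖ ≤ ‖J y‖) {y : ℕ → Y}
    (hy : IsBasicSeq 𝕜 y) : IsBasicSeq 𝕜 (fun n => J (y n)) := by
  have hanti : AntilipschitzWith 1 J := by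
    refine AddMonoidHomClass.antilipschitz_of_bound J (fun x => ?_)
    simpa using hJ x
  have hinj : Function.Injective J := hanti.injective
  have hind : Topology.IsInducing J := (hanti.isUniformInducing J.uniformContinuous).isInducing
  have hlim : ∀ (a : ℕ → 𝕜) (w : Y),
      Tendsto (fun N => ∑ n ∈ Finset.range N, a n • J (y n)) atTop (𝓝 (J w)) ↔
      Tendsto (fun N => ∑ n ∈ Finset.range N, a n • y n) atTop (𝓝 w) := by
    intro a w
    rw [hind.tendsto_nhds_iff]
    simp [Function.comp_def]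
  refine ⟨fun n h => hy.1 n (hinj ((show J (y n) = 0 from h).trans (map_zero J).symm)),
    fun v hv => ?_⟩
  -- `v` lies in the image of the closed span
  obtain ⟨w', hw1, hw2⟩ := mem_closure_iff_seq_limit.1 hv
  have hrep : ∀ j, ∃ u ∈ Submodule.span 𝕜 (Set.range y), J u = w' j := by
    intro j
    have h1 := hw1 j
    have h2 : Submodule.span 𝕜 (Set.range fun n => J (y n))
        = (Submodule.span 𝕜 (Set.range y)).map J.toLinearMap := by
      rw [Submodule.map_span, ← Set.range_comp]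
      rfl
    rw [SetLike.mem_coe, h2, Submodule.mem_map] at h1
    obtain ⟨u, hu, hu2⟩ := h1
    exact ⟨u, hu, hu2⟩
  choose u hu1 hu2 using hrep
  have hcau : CauchySeq u := by
    have h1 : CauchySeq (fun j => J (u j)) := by
      have : (fun j => J (u j)) = w' := funext hu2
      rw [this]
      exact hw2.cauchySeq
    rw [Metric.cauchySeq_iff] at h1 ⊢
    intro ε hε
    obtain ⟨N, hN⟩ := h1 ε hε
    refine ⟨N, fun m hm n hn => ?_⟩
    have h2 := hN m hm n hn
    rw [dist_eq_norm] at h2 ⊢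
    rw [← map_sub] at h2
    exact (hJ _).trans_lt h2
  obtain ⟨w, hw⟩ := cauchySeq_tendsto_of_complete hcau
  have hvw : v = J w := by
    refine tendsto_nhds_unique hw2 ?_
    have : w' = fun j => J (u j) := funext (fun j => (hu2 j).symm)
    rw [this]
    exact (J.continuous.tendsto w).comp hw
  have hwc : w ∈ closure (Submodule.span 𝕜 (Set.range y) : Set Y) :=
    mem_closure_of_tendsto hw (Eventually.of_forall hu1)
  obtain ⟨a, ha1, ha2⟩ := hy.2 w hwc
  subst hvw
  exact ⟨a, (hlim a w).2 ha1, fun b hb => ha2 b ((hlim b w).1 hb)⟩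

end Transport

/-! ### The theorem -/

section Main

variable {E : Type v} [NormedAddCommGroup E] [NormedSpace 𝕜 E]

/-- If the quotient is infinite-dimensional, the annihilator is large. -/
theorem exists_ann (G : Submodule 𝕜 E) (hG : IsClosed (G : Set E))
    (h : ¬ FiniteDimensional 𝕜 (E ⧸ G)) (X : Finset E) :
    ∃ h : StrongDual 𝕜 E, h ≠ 0 ∧ (∀ x ∈ G, h x = 0) ∧ ∀ x ∈ X, h x = 0 := by
  have : IsClosed (G : Set E) := hG
  let W : Submodule 𝕜 (E ⧸ G) := Submodule.span 𝕜 (G.mkQ '' (X : Set E))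
  have hWfin : FiniteDimensional 𝕜 W :=
    FiniteDimensional.span_of_finite 𝕜 (X.finite_toSet.image _)
  have hWcl : IsClosed (W : Set (E ⧸ G)) := W.closed_of_finiteDimensional
  have hWtop : W ≠ ⊤ := by
    intro htop
    rw [htop] at hWfin
    exact h (Module.finite_def.2 (Module.Finite.iff_fg.1 hWfin))
  obtain ⟨q, -, hq⟩ := SetLike.exists_of_lt (lt_top_iff_ne_top.2 hWtop)
  have hq0 : (W.mkQ q) ≠ 0 := by
    rw [Submodule.mkQ_apply, Ne, Submodule.Quotient.mk_eq_zero]
    exact hq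
  obtain ⟨φ, hφ1, hφ2⟩ := exists_dual_vector 𝕜 (W.mkQ q) (norm_ne_zero_iff.2 hq0)
  obtain ⟨x₀, hx₀⟩ := G.mkQ_surjective q
  let f : StrongDual 𝕜 E := φ.comp (W.mkQL.comp G.mkQL)
  have hf : ∀ x, f x = φ (W.mkQ (G.mkQ x)) := fun x => rfl
  refine ⟨f, fun hf0 => ?_, fun x hx => ?_, fun x hx => ?_⟩
  · have h1 : f x₀ = 0 := by rw [hf0]; rfl
    rw [hf, hx₀, hφ2] at h1
    exact hq0 (norm_eq_zero.1 (by exact_mod_cast h1))
  · have h1 : G.mkQ x = 0 := by
      rw [Submodule.mkQ_apply]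
      exact (Submodule.Quotient.mk_eq_zero G).2 hx
    rw [hf, h1, map_zero, map_zero]
  · have h1 : W.mkQ (G.mkQ x) = 0 := by
      rw [Submodule.mkQ_apply, Submodule.Quotient.mk_eq_zero]
      exact Submodule.subset_span ⟨x, hx, rfl⟩
    rw [hf, h1, map_zero]

/-- Every basic sequence in `G*` lifts to a basic sequence of extensions in `E*`. -/
theorem result (𝕜 : Type u) [RCLike 𝕜] (E : Type v) [NormedAddCommGroup E] [NormedSpace 𝕜 E]
    [CompleteSpace E] (G : Submodule 𝕜 E) (hG : IsClosed (G : Set E))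
    (φ : ℕ → StrongDual 𝕜 G) (hφ : IsBasicSeq 𝕜 φ) :
    ∃ f : ℕ → StrongDual 𝕜 E, (∀ (n : ℕ) (g : G), f n (g : E) = φ n g) ∧ IsBasicSeq 𝕜 f := by
  by_cases hA : FiniteDimensional 𝕜 (E ⧸ G)
  · obtain ⟨P, hP⟩ := Submodule.ClosedComplemented.of_finiteDimensional_quotient hG
    let J : StrongDual 𝕜 G →L[𝕜] StrongDual 𝕜 E := (ContinuousLinearMap.compL 𝕜 E G 𝕜).flip P
    have hJ : ∀ ψ : StrongDual 𝕜 G, ∀ x : E, J ψ x = ψ (P x) := fun ψ x => rfl
    refine ⟨fun n => J (φ n), fun n g => ?_, isBasicSeq_map J (fun ψ => ?_) hφ⟩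
    · rw [hJ, hP]
    · refine ContinuousLinearMap.opNorm_le_bound _ (norm_nonneg _) (fun g => ?_)
      calc ‖ψ g‖ = ‖J ψ (g : E)‖ := by rw [hJ, hP]
        _ ≤ ‖J ψ‖ * ‖(g : E)‖ := (J ψ).le_opNorm _
        _ = _ := rfl
  · choose g hg _ using fun n => exists_extension_norm_eq G (φ n)
    obtain ⟨f, hf1, hf2⟩ := mazur_cosets G (exists_ann G hG hA) g
    refine ⟨f, fun n x => ?_, hf2⟩
    rw [hf1 n (x : E) x.2, hg]

end Main

end Pool.Agent.Results.MP_6df72f_an.BasicExtension
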